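import Mathlib
import Pool.Agent.X10.SC2

open Finset Filter Topology

namespace Pool.Agent.Results.MP_b44203_nt.SignChanges

open Pool.Agent.X10.SC

variable {p q : ℕ}

/-- real power series -/
noncomputable def FR (p q : ℕ) (r : ℝ) : ℝ := ∑' n : ℕ, (f p q n : ℝ) * r ^ n

lemma norm_real_lt {r : ℝ} (hr0 : 0 ≤ r) (hr1 : r < 1) : ‖(r : ℂ)‖ < 1 := by
  rw [Complex.norm_real, Real.norm_eq_abs, abs_of_nonneg hr0]; exact hr1

lemma summable_FR (hp : 1 < p) (hq : 1 < q) (hc : Nat.Coprime p q) {r : ℝ} (hr0 : 0 ≤ r)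
    (hr1 : r < 1) : Summable (fun n : ℕ => (f p q n : ℝ) * r ^ n) := by
  have h1 := (hasSum_F hp hq hc (norm_real_lt hr0 hr1)).summable
  have h2 : (fun n : ℕ => (f p q n : ℂ) * (r : ℂ) ^ n) =
      fun n : ℕ => (((f p q n : ℝ) * r ^ n : ℝ) : ℂ) := by
    funext n; push_cast; rfl
  rw [h2] at h1
  exact Complex.summable_ofReal.mp h1

lemma F_real (hp : 1 < p) (hq : 1 < q) (hc : Nat.Coprime p q) {r : ℝ} (hr0 : 0 ≤ r)
    (hr1 : r < 1) : F p q (r : ℂ) = ((FR p q r : ℝ) : ℂ) := by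
  have h1 := (hasSum_F hp hq hc (norm_real_lt hr0 hr1)).tsum_eq
  rw [← h1]
  unfold FR
  rw [Complex.ofReal_tsum]
  apply tsum_congr
  intro n; push_cast; rfl

lemma FR_nonneg {r : ℝ} (hr0 : 0 ≤ r) : 0 ≤ FR p q r :=
  tsum_nonneg (fun n => by positivity)

/-- the key inequality for eventually nondecreasing `f` -/
lemma key_ineq (hp : 1 < p) (hq : 1 < q) (hc : Nat.Coprime p q) {n₀ : ℕ}
    (hmono : ∀ n, n₀ ≤ n → f p q n ≤ f p q (n + 1)) :
    ∃ C : ℝ, 0 ≤ C ∧ ∀ z : ℂ, ‖z‖ < 1 → ‖1 - z‖ * ‖F p q z‖ ≤ (1 - ‖z‖) * FR p q ‖z‖ + C := by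
  set d : ℕ → ℝ := fun n => (f p q (n + 1) : ℝ) - f p q n with hd
  set dm : ℕ → ℝ := fun n => max (-(d n)) 0 with hdm
  have hdm0 : ∀ n, 0 ≤ dm n := fun n => le_max_right _ _
  have hdm1 : ∀ n, n ∉ range n₀ → dm n = 0 := by
    intro n hn
    rw [mem_range, not_lt] at hn
    have h1 : (f p q n : ℝ) ≤ f p q (n + 1) := by exact_mod_cast hmono n hn
    simp only [hdm, hd]
    apply max_eq_right
    linarith
  have habs : ∀ n, |d n| = d n + 2 * dm n := by
    intro n
    simp only [hdm]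
    rcases le_or_gt 0 (d n) with h | h
    · rw [abs_of_nonneg h, max_eq_right (by linarith)]; ring
    · rw [abs_of_neg h, max_eq_left (by linarith)]; ring
  refine ⟨2 * ∑ n ∈ range n₀, dm n, by positivity, ?_⟩
  intro z hz
  set r := ‖z‖ with hr
  have hr0 : 0 ≤ r := norm_nonneg _
  -- complex series
  have hF := hasSum_F hp hq hc hz
  have hF1 : HasSum (fun n : ℕ => (f p q (n + 1) : ℂ) * z ^ (n + 1)) (F p q z - f p q 0) := by
    have := (hasSum_nat_add_iff' (f := fun n : ℕ => (f p q n : ℂ) * z ^ n) 1).mpr hF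
    simpa using this
  have hF2 : HasSum (fun n : ℕ => (f p q n : ℂ) * z ^ (n + 1)) (z * F p q z) := by
    have := hF.mul_left z
    refine this.congr_fun ?_ |> fun h => h
    intro n
    ring
  have hF3 := hF1.sub hF2
  have hF4 : HasSum (fun n : ℕ => ((d n : ℝ) : ℂ) * z ^ (n + 1)) (F p q z - f p q 0 - z * F p q z) := by
    refine hF3.congr_fun ?_ |> fun h => h
    intro n
    simp only [hd]
    push_cast
    ring
  -- real series
  have hs := summable_FR hp hq hc hr0 hz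
  have hR : HasSum (fun n : ℕ => (f p q n : ℝ) * r ^ n) (FR p q r) := hs.hasSum
  have hR1 : HasSum (fun n : ℕ => (f p q (n + 1) : ℝ) * r ^ (n + 1)) (FR p q r - f p q 0) := by
    have := (hasSum_nat_add_iff' (f := fun n : ℕ => (f p q n : ℝ) * r ^ n) 1).mpr hR
    simpa using this
  have hR2 : HasSum (fun n : ℕ => (f p q n : ℝ) * r ^ (n + 1)) (r * FR p q r) := by
    have := hR.mul_left r
    refine this.congr_fun ?_ |> fun h => h
    intro n
    ring
  have hR4 : HasSum (fun n : ℕ => d n * r ^ (n + 1)) (FR p q r - f p q 0 - r * FR p q r) := by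
    refine (hR1.sub hR2).congr_fun ?_ |> fun h => h
    intro n
    simp only [hd]
    ring
  have hM : HasSum (fun n : ℕ => dm n * r ^ (n + 1)) (∑ n ∈ range n₀, dm n * r ^ (n + 1)) := by
    apply hasSum_sum_of_ne_finset_zero
    intro n hn
    rw [hdm1 n hn, zero_mul]
  have hA : HasSum (fun n : ℕ => |d n| * r ^ (n + 1))
      (FR p q r - f p q 0 - r * FR p q r + 2 * ∑ n ∈ range n₀, dm n * r ^ (n + 1)) := by
    refine (hR4.add (hM.mul_left 2)).congr_fun ?_ |> fun h => h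
    intro n
    rw [habs]
    ring
  have hnorm : ‖F p q z - f p q 0 - z * F p q z‖ ≤
      FR p q r - f p q 0 - r * FR p q r + 2 * ∑ n ∈ range n₀, dm n * r ^ (n + 1) := by
    rw [← hF4.tsum_eq, ← hA.tsum_eq]
    have h5 : (fun n : ℕ => ‖((d n : ℝ) : ℂ) * z ^ (n + 1)‖) = fun n : ℕ => |d n| * r ^ (n + 1) := by
      funext n
      rw [norm_mul, Complex.norm_real, Real.norm_eq_abs, norm_pow]
    have h6 := norm_tsum_le_tsum_norm (f := fun n : ℕ => ((d n : ℝ) : ℂ) * z ^ (n + 1))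
      (by rw [h5]; exact hA.summable)
    rwa [h5] at h6
  have hle : ∑ n ∈ range n₀, dm n * r ^ (n + 1) ≤ ∑ n ∈ range n₀, dm n := by
    apply sum_le_sum
    intro n _
    have : r ^ (n + 1) ≤ 1 := pow_le_one₀ hr0 hz.le
    nlinarith [hdm0 n]
  have h7 : ‖1 - z‖ * ‖F p q z‖ ≤ (f p q 0 : ℝ) + ‖F p q z - f p q 0 - z * F p q z‖ := by
    rw [← norm_mul]
    have h8 : (1 - z) * F p q z = (f p q 0 : ℂ) + (F p q z - f p q 0 - z * F p q z) := by ring
    rw [h8]
    refine (norm_add_le _ _).trans ?_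
    have : ‖(f p q 0 : ℂ)‖ = f p q 0 := by simp
    rw [this]
  linarith

lemma f_pos (hp : 1 < p) (hq : 1 < q) (hc : Nat.Coprime p q) (k : ℕ) : 1 ≤ f p q (p ^ k) := by
  rw [f_eq hp hq hc, Nat.one_le_iff_ne_zero, Ne, Set.ncard_eq_zero (fiber_finite hp hq _)]
  intro h
  have h1 : ({(k, 0)} : Finset (ℕ × ℕ)) ∈ {T : Finset (ℕ × ℕ) | e p q T = p ^ k} := by
    show e p q {(k, 0)} = p ^ k
    unfold e a
    simp
  rw [h] at h1
  exact h1

lemma FR_ge (hp : 1 < p) (hq : 1 < q) (hc : Nat.Coprime p q) {n₁ : ℕ}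
    (h1 : ∀ n, n₁ ≤ n → 1 ≤ f p q n) {r : ℝ} (hr0 : 0 ≤ r) (hr1 : r < 1) :
    r ^ n₁ ≤ (1 - r) * FR p q r := by
  have hs := summable_FR hp hq hc hr0 hr1
  have h2 := hs.sum_add_tsum_nat_add n₁
  have h3 : ∑' n : ℕ, r ^ (n + n₁) ≤ ∑' n : ℕ, (f p q (n + n₁) : ℝ) * r ^ (n + n₁) := by
    apply Summable.tsum_le_tsum
    · intro n
      have h4 : (1 : ℝ) ≤ f p q (n + n₁) := by exact_mod_cast h1 _ (by omega)
      have h5 : 0 ≤ r ^ (n + n₁) := by positivity
      nlinarith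
    · exact (summable_nat_add_iff n₁).mpr (summable_geometric_of_lt_one hr0 hr1)
    · exact (summable_nat_add_iff n₁).mpr hs
  have h4 : ∑' n : ℕ, r ^ (n + n₁) = r ^ n₁ * (1 - r)⁻¹ := by
    simp_rw [pow_add]
    rw [tsum_mul_right, tsum_geometric_of_lt_one hr0 hr1, mul_comm]
  have h5 : 0 ≤ ∑ n ∈ range n₁, (f p q n : ℝ) * r ^ n := by positivity
  have h6 : r ^ n₁ * (1 - r)⁻¹ ≤ FR p q r := by
    unfold FR
    rw [← h2, ← h4]
    linarith
  have h7 : 0 < 1 - r := by linarith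
  calc r ^ n₁ = (1 - r) * (r ^ n₁ * (1 - r)⁻¹) := by field_simp
    _ ≤ (1 - r) * FR p q r := mul_le_mul_of_nonneg_left h6 h7.le

/-- `f` is not eventually nondecreasing -/
theorem not_mono (hp : 2 < p) (hpq : p < q) (hc : Nat.Coprime p q) {n₀ : ℕ}
    (hmono : ∀ n, n₀ ≤ n → f p q n ≤ f p q (n + 1)) : False := by
  have hp1 : 1 < p := by omega
  have hq1 : 1 < q := by omega
  obtain ⟨C, hC0, hC⟩ := key_ineq hp1 hq1 hc hmono
  -- `f ≥ 1` eventually
  set n₁ := p ^ n₀ with hn₁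
  have hn01 : n₀ ≤ n₁ := (Nat.lt_pow_self hp1).le
  have hf1 : ∀ n, n₁ ≤ n → 1 ≤ f p q n := by
    intro n hn
    induction n, hn using Nat.le_induction with
    | base => exact f_pos hp1 hq1 hc n₀
    | succ n hn ih => exact ih.trans (hmono n (hn01.trans hn))
  set c₀ : ℝ := (1 / 2) ^ n₁ with hc₀
  have hc₀pos : 0 < c₀ := by positivity
  set D : ℝ := ∑ z ∈ J p, 2 / ‖1 - z‖ with hD
  have hDz : ∀ z ∈ J p, 2 / ‖1 - z‖ ≤ D := by
    intro z hz
    exact single_le_sum (f := fun z : ℂ => 2 / ‖1 - z‖) (fun i _ => by positivity) hz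
  have hD0 : 0 ≤ D := by positivity
  set C₁ : ℝ := D * (1 + C / c₀) with hC₁
  have hC₁0 : 0 ≤ C₁ := by positivity
  -- bound for `G`
  have hG : ∀ r : ℝ, 1 / 2 ≤ r → r < 1 → ∀ z ∈ J p,
      ‖G q (z * r)‖ ≤ C₁ * (1 - r) * ‖G q (r : ℂ)‖ := by
    intro r hr hr1 z hz
    have hr0 : 0 ≤ r := by linarith
    have hzn := norm_of_mem_J (by omega) hz
    have hzr : ‖z * (r : ℂ)‖ = r := by
      rw [norm_mul, hzn, one_mul, Complex.norm_real, Real.norm_eq_abs, abs_of_nonneg hr0]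
    have h1 := hC (z * r) (by rw [hzr]; exact hr1)
    rw [hzr] at h1
    have h2 := FR_ge hp1 hq1 hc hf1 hr0 hr1
    have h3 : c₀ ≤ r ^ n₁ := pow_le_pow_left₀ (by norm_num) hr n₁
    have hX : 0 ≤ (1 - r) * FR p q r := mul_nonneg (by linarith) (FR_nonneg hr0)
    have h4 : C ≤ C / c₀ * ((1 - r) * FR p q r) := by
      have h5 : C = C / c₀ * c₀ := by field_simp
      conv_lhs => rw [h5]
      apply mul_le_mul_of_nonneg_left (h3.trans h2)
      positivity
    have hz1 : z ≠ 1 := ((mem_J (by omega)).mp hz).2.1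
    have hz1' : 0 < ‖1 - z‖ := norm_pos_iff.mpr (sub_ne_zero.mpr (Ne.symm hz1))
    have h5 : ‖1 - z‖ ≤ 2 * ‖1 - z * r‖ := by
      have h6 : ‖1 - z‖ ≤ ‖1 - z * r‖ + ‖z * r - z‖ := by
        have : (1 : ℂ) - z = (1 - z * r) + (z * r - z) := by ring
        rw [this]; exact norm_add_le _ _
      have h7 : ‖z * r - z‖ = 1 - r := by
        have : z * (r : ℂ) - z = z * ((r - 1 : ℝ) : ℂ) := by push_cast; ring
        rw [this, norm_mul, hzn, one_mul, Complex.norm_real, Real.norm_eq_abs,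
          abs_of_nonpos (by linarith)]
        ring
      have h8 : 1 - r ≤ ‖1 - z * r‖ := by
        have h9 := norm_sub_norm_le (1 : ℂ) (z * r)
        rw [norm_one, hzr] at h9
        exact h9
      linarith
    have h6 : ‖F p q (z * r)‖ ≤ 2 / ‖1 - z‖ * ((1 - r) * FR p q r + C) := by
      rw [div_mul_eq_mul_div, le_div_iff₀ hz1']
      have h7 : ‖F p q (z * r)‖ * ‖1 - z‖ ≤ ‖F p q (z * r)‖ * (2 * ‖1 - z * r‖) :=
        mul_le_mul_of_nonneg_left h5 (norm_nonneg _)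
      nlinarith
    have h7 : ‖F p q (z * r)‖ ≤ C₁ * (1 - r) * FR p q r := by
      calc ‖F p q (z * r)‖ ≤ 2 / ‖1 - z‖ * ((1 - r) * FR p q r + C) := h6
        _ ≤ D * ((1 - r) * FR p q r + C / c₀ * ((1 - r) * FR p q r)) := by
            apply mul_le_mul (hDz z hz) (by linarith) (by linarith) hD0
        _ = C₁ * (1 - r) * FR p q r := by rw [hC₁]; ring
    have hrn := norm_real_lt hr0 hr1
    have hzrn : ‖z * (r : ℂ)‖ < 1 := by rw [hzr]; exact hr1
    have h8 : (z * (r : ℂ)) ^ p = (r : ℂ) ^ p := by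
      rw [mul_pow, ((mem_J (by omega)).mp hz).1, one_mul]
    have h9 : FR p q r = ‖F p q (r : ℂ)‖ := by
      rw [F_real hp1 hq1 hc hr0 hr1, Complex.norm_real, Real.norm_eq_abs,
        abs_of_nonneg (FR_nonneg hr0)]
    rw [h9, F_fun hp1 hq1 hc hzrn, F_fun hp1 hq1 hc hrn, h8, norm_mul, norm_mul] at h7
    have h10 : 0 < ‖F p q ((r : ℂ) ^ p)‖ :=
      norm_pos_iff.mpr (F_ne hp1 hq1 hc (norm_pow_lt hrn (by omega)))
    have h11 : ‖G q (z * r)‖ * ‖F p q ((r : ℂ) ^ p)‖ ≤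
        (C₁ * (1 - r) * ‖G q (r : ℂ)‖) * ‖F p q ((r : ℂ) ^ p)‖ := by
      linarith
    exact le_of_mul_le_mul_right h11 h10
  -- bound for `H`
  set m := (J p).card with hm
  have hm2 : 2 ≤ m := card_J hp
  have hH : ∀ r : ℝ, 1 / 2 ≤ r → r < 1 → H p q r ≤ (C₁ * (1 - r) * ‖G q (r : ℂ)‖) ^ m := by
    intro r hr hr1
    unfold H
    calc ∏ z ∈ J p, ‖G q (z * r)‖ ≤ ∏ _z ∈ J p, (C₁ * (1 - r) * ‖G q (r : ℂ)‖) :=
          prod_le_prod (fun _ _ => norm_nonneg _) (fun z hz => hG r hr hr1 z hz)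
      _ = _ := by rw [prod_const]
  -- the sequence
  have hHhalf : 0 < H p q (1 / 2) := by
    unfold H
    apply prod_pos
    intro z hz
    exact norm_pos_iff.mpr (G_ne hq1 (norm_mul_lt (by omega) hz (by norm_num) (by norm_num)))
  set g : ℝ := ‖G q (((1 / 2 : ℝ) : ℝ) : ℂ)‖ with hg
  have hg0 : 0 ≤ g := norm_nonneg _
  have hseq : ∀ k : ℕ, H p q (1 / 2) / 2 ^ k ≤ (C₁ * g / 2 ^ k) ^ m := by
    intro k
    set Q : ℕ := q ^ k with hQ
    have hQ0 : Q ≠ 0 := (pow_pos (by omega) _).ne'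
    have hQ1 : (1 : ℝ) ≤ Q := by exact_mod_cast Nat.one_le_iff_ne_zero.mpr hQ0
    set r : ℝ := (1 / 2 : ℝ) ^ ((Q : ℝ)⁻¹) with hr
    have hrQ : r ^ Q = 1 / 2 := Real.rpow_inv_natCast_pow (by norm_num) hQ0
    have hr0 : 0 ≤ r := Real.rpow_nonneg (by norm_num) _
    have hr1 : r < 1 := by
      apply Real.rpow_lt_one (by norm_num) (by norm_num)
      positivity
    have hrhalf : 1 / 2 ≤ r := by
      calc (1 / 2 : ℝ) = (1 / 2 : ℝ) ^ (1 : ℝ) := by rw [Real.rpow_one]
        _ ≤ r := Real.rpow_le_rpow_of_exponent_ge (by norm_num) (by norm_num)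
            (inv_le_one_of_one_le₀ hQ1)
    have h1r : 1 - r ≤ 1 / Q := by
      have h1 : r = Real.exp (Real.log (1 / 2) * (Q : ℝ)⁻¹) := by
        rw [hr, Real.rpow_def_of_pos (by norm_num)]
      have h2 := Real.add_one_le_exp (Real.log (1 / 2) * (Q : ℝ)⁻¹)
      rw [← h1] at h2
      have h3 : Real.log (1 / 2) = - Real.log 2 := by
        rw [one_div, Real.log_inv]
      have h4 : Real.log 2 ≤ 1 := by
        have := Real.log_two_lt_d9
        linarith
      rw [h3] at h2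
      have h5 : Real.log 2 * (Q : ℝ)⁻¹ ≤ 1 * (Q : ℝ)⁻¹ := by
        apply mul_le_mul_of_nonneg_right h4
        positivity
      rw [one_div]
      linarith
    have h1 := H_iter hp hq1 hc k hr0 hr1
    rw [← hQ, hrQ] at h1
    have h2 := G_iter hq1 k hr0 hr1
    rw [← hQ, hrQ] at h2
    have h3 := hH r hrhalf hr1
    refine h1.trans (h3.trans ?_)
    apply pow_le_pow_left₀
    · have : 0 ≤ 1 - r := by linarith
      positivity
    have hq4 : (4 : ℝ) ^ k ≤ Q := by
      have : 4 ^ k ≤ q ^ k := Nat.pow_le_pow_left (by omega) k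
      rw [hQ]
      exact_mod_cast this
    calc C₁ * (1 - r) * ‖G q (r : ℂ)‖ ≤ C₁ * (1 / Q) * (2 ^ k * g) := by
          apply mul_le_mul (mul_le_mul_of_nonneg_left h1r hC₁0) h2 (norm_nonneg _)
          positivity
      _ ≤ C₁ * (1 / 4 ^ k) * (2 ^ k * g) := by
          apply mul_le_mul_of_nonneg_right _ (by positivity)
          apply mul_le_mul_of_nonneg_left _ hC₁0
          exact one_div_le_one_div_of_le (by positivity) hq4
      _ = C₁ * g / 2 ^ k := by
          have : (4 : ℝ) ^ k = 2 ^ k * 2 ^ k := by rw [← mul_pow]; norm_num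
          rw [this]
          field_simp
  -- contradiction
  set X := C₁ * g with hX
  have hX0 : 0 ≤ X := by positivity
  obtain ⟨k, hk⟩ := pow_unbounded_of_one_lt (X + X ^ 2 / H p q (1 / 2)) (show (1 : ℝ) < 2 by norm_num)
  have h1 := hseq k
  have h2k : (0 : ℝ) < 2 ^ k := by positivity
  have h2 : 0 ≤ X ^ 2 / H p q (1 / 2) := by positivity
  have h3 : X / 2 ^ k ≤ 1 := by
    rw [div_le_one h2k]; linarith
  have h4 : (X / 2 ^ k) ^ m ≤ (X / 2 ^ k) ^ 2 := pow_le_pow_of_le_one (by positivity) h3 hm2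
  have h5 : H p q (1 / 2) / 2 ^ k ≤ X ^ 2 / (2 ^ k) ^ 2 := by
    rw [← div_pow]; exact h1.trans h4
  rw [div_le_div_iff₀ h2k (by positivity)] at h5
  have h6 : H p q (1 / 2) * 2 ^ k ≤ X ^ 2 := by
    have h7 : (H p q (1 / 2) * 2 ^ k) * 2 ^ k ≤ X ^ 2 * 2 ^ k := by nlinarith
    exact le_of_mul_le_mul_right h7 h2k
  have h7 : X ^ 2 / H p q (1 / 2) < 2 ^ k := by linarith
  rw [div_lt_iff₀ hHhalf] at h7
  linarith

/-- `f` is not eventually nonincreasing -/
theorem not_anti (hp : 1 < p) (hq : 1 < q) (hc : Nat.Coprime p q) {n₀ : ℕ}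
    (hanti : ∀ n, n₀ ≤ n → f p q (n + 1) ≤ f p q n) : False := by
  -- bounded
  obtain ⟨M, hM⟩ : ∃ M : ℕ, ∀ n, f p q n ≤ M := by
    refine ⟨(range (n₀ + 1)).sup (f p q), ?_⟩
    intro n
    rcases le_or_gt n n₀ with h | h
    · exact le_sup (f := f p q) (mem_range.mpr (by omega))
    · have h1 : f p q n ≤ f p q n₀ := by
        induction n, h.le using Nat.le_induction with
        | base => exact le_rfl
        | succ n hn ih =>
          rcases Nat.lt_or_ge n₀ n with h2 | h2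
          · exact (hanti n hn).trans (ih h2)
          · have : n = n₀ := by omega
            subst this
            exact hanti n le_rfl
      exact h1.trans (le_sup (f := f p q) (mem_range.mpr (by omega)))
  set K := M + 8 * (p * q) with hK
  have hK1 : 1 ≤ K := by
    have : 0 < p * q := Nat.mul_pos (by omega) (by omega)
    omega
  set N := K ^ 2 * (p * q) ^ K with hN
  have hmaps : ∀ T ∈ (range K ×ˢ range K).powerset, e p q T ∈ range (N + 1) := by
    intro T hT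
    rw [mem_powerset] at hT
    rw [mem_range, Nat.lt_succ_iff]
    unfold e
    calc ∑ x ∈ T, a p q x ≤ ∑ _x ∈ T, (p * q) ^ K := by
          apply sum_le_sum
          intro x hx
          have h1 := hT hx
          rw [mem_product, mem_range, mem_range] at h1
          unfold a
          rw [mul_pow]
          exact Nat.mul_le_mul (Nat.pow_le_pow_right (by omega) h1.1.le)
            (Nat.pow_le_pow_right (by omega) h1.2.le)
      _ = T.card * (p * q) ^ K := by rw [sum_const, smul_eq_mul]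
      _ ≤ K ^ 2 * (p * q) ^ K := by
          apply Nat.mul_le_mul_right
          calc T.card ≤ (range K ×ˢ range K).card := card_le_card hT
            _ = K ^ 2 := by rw [card_product, card_range, sq]
  have hfib : ∀ b ∈ range (N + 1),
      ((range K ×ˢ range K).powerset.filter (fun T => e p q T = b)).card ≤ M := by
    intro b _
    refine le_trans ?_ (hM b)
    rw [f_eq hp hq hc, ← Set.ncard_coe_finset]
    apply Set.ncard_le_ncard _ (fiber_finite hp hq b)
    intro T hT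
    rw [Finset.mem_coe, mem_filter] at hT
    exact hT.2
  have hcard := card_le_mul_card_image_of_maps_to hmaps M hfib
  rw [card_powerset, card_product, card_range, card_range] at hcard
  -- numerical contradiction
  have hpq1 : 1 ≤ (p * q) ^ K := Nat.one_le_pow _ _ (Nat.mul_pos (by omega) (by omega))
  have hK2 : K < 2 ^ K := Nat.lt_two_pow_self
  have h1 : M * (N + 1) ≤ (K * (K ^ 2 + 1)) * (p * q) ^ K := by
    calc M * (N + 1) ≤ K * (K ^ 2 * (p * q) ^ K + (p * q) ^ K) :=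
          Nat.mul_le_mul (by omega) (by omega)
      _ = _ := by ring
  have h2 : K * (K ^ 2 + 1) < 8 ^ K := by
    have e1 : (8 : ℕ) ^ K = 2 ^ K * (2 ^ K * 2 ^ K) := by
      rw [← mul_pow, ← mul_pow]
      norm_num
    have e2 : K ^ 2 + 1 ≤ 2 ^ K * 2 ^ K := by nlinarith
    rw [e1]
    calc K * (K ^ 2 + 1) < 2 ^ K * (K ^ 2 + 1) := Nat.mul_lt_mul_of_pos_right hK2 (by positivity)
      _ ≤ 2 ^ K * (2 ^ K * 2 ^ K) := Nat.mul_le_mul_left _ e2
  have h3 : (K * (K ^ 2 + 1)) * (p * q) ^ K < 2 ^ (K * K) := by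
    calc (K * (K ^ 2 + 1)) * (p * q) ^ K < 8 ^ K * (p * q) ^ K :=
          Nat.mul_lt_mul_of_pos_right h2 (by omega)
      _ = (8 * (p * q)) ^ K := by rw [mul_pow 8]
      _ ≤ (2 ^ K) ^ K := Nat.pow_le_pow_left (by omega) K
      _ = 2 ^ (K * K) := by rw [← pow_mul]
  have h4 : ((range (N + 1)).card) = N + 1 := card_range _
  omega

/-- For all coprime `q > p > 2` the sign of `f_{p,q}(n+1) - f_{p,q}(n)` changes infinitely
often. -/
theorem result (p q : ℕ) (hp : 2 < p) (hpq : p < q) (hc : Nat.Coprime p q) :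
    (∀ N, ∃ n, N ≤ n ∧ f p q n < f p q (n + 1)) ∧ (∀ N, ∃ n, N ≤ n ∧ f p q (n + 1) < f p q n) := by
  constructor
  · intro N
    by_contra hcon
    push Not at hcon
    exact not_anti (by omega) (by omega) hc hcon
  · intro N
    by_contra hcon
    push Not at hcon
    exact not_mono hp hpq hc hcon

end Pool.Agent.Results.MP_b44203_nt.SignChanges
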